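import Pool.Agent.Helper57.SI.Stmts
import Pool.Agent.Helper71.CP.M2

/-!
# The weighted integral over every interval of length `H` is at least `H / 2`
-/

set_option autoImplicit false

namespace Pool.Agent.Helper63.SI

open MeasureTheory Set Filter Topology
open Pool.Agent.Helper57.QZ (Pr tor circ aa Zy Wy Sy Vy Ky Fy pt lin)
open Pool.Agent.Helper57.SI

theorem fej_cont (K : ℕ) : Continuous (fej K) := by
  unfold fej
  refine continuous_finsetSum _ fun k _ => ?_
  exact continuous_const.mul (Real.continuous_cos.comp (continuous_const.mul continuous_id))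

theorem ww_cont (z K : ℕ) (α : ℝ) : Continuous (ww z K α) := by
  unfold ww
  refine continuous_finsetProd _ fun p _ => ?_
  exact (fej_cont K).comp ((continuous_id.mul continuous_const).add continuous_const)

theorem D1_cont (z : ℕ) (α : ℝ) : Continuous (D1 z α) := by
  unfold D1
  refine continuous_finsetSum _ fun p _ => ?_
  exact (continuous_const.sub (Real.continuous_cos.comp
    ((continuous_id.mul continuous_const).add continuous_const))).div_const _

theorem D2_cont (z : ℕ) (α : ℝ) : Continuous (D2 z α) := by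
  unfold D2
  refine continuous_finsetSum _ fun p _ => ?_
  exact (continuous_const.mul (continuous_const.sub (Real.continuous_cos.comp
    ((continuous_id.mul continuous_const).add continuous_const)))).div_const _

theorem P2_le {z : ℕ} (hz : 1 ≤ z) : P2 z ≤ Real.log z + Real.log 4 :=
  Pool.Agent.Helper56.CP.mtA_le hz

theorem P2_nonneg (z : ℕ) : 0 ≤ P2 z := by
  unfold P2
  refine Finset.sum_nonneg fun p _ => ?_
  exact div_nonneg (Real.log_natCast_nonneg p) (Nat.cast_nonneg p)

/-- `P1 z ≤ M + P2 z / log M` -/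
theorem P1_le (M z : ℕ) (hM : 2 ≤ M) : P1 z ≤ M + P2 z / Real.log M := by
  have hM' : (2 : ℝ) ≤ M := by exact_mod_cast hM
  have hlM : 0 < Real.log M := Real.log_pos (by linarith)
  unfold P1 P2
  rw [Finset.sum_div]
  have h1 : ∀ p ∈ Nat.primesBelow (z + 1), 1 / (p : ℝ) ≤
      (if p < M then (1 : ℝ) else 0) + Real.log p / (p : ℝ) / Real.log M := by
    intro p hp
    have hpp : p.Prime := Nat.prime_of_mem_primesBelow hp
    have hp1 : (1 : ℝ) ≤ p := by exact_mod_cast hpp.one_le
    have hp0 : (0 : ℝ) < p := by linarith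
    have hlp : 0 ≤ Real.log p := Real.log_nonneg hp1
    by_cases h : p < M
    · rw [if_pos h]
      have h2 : 1 / (p : ℝ) ≤ 1 := by rw [div_le_one hp0]; exact hp1
      have h3 : 0 ≤ Real.log p / (p : ℝ) / Real.log M := by positivity
      linarith
    · rw [if_neg h, zero_add]
      have h2 : (M : ℝ) ≤ p := by exact_mod_cast not_lt.1 h
      have h3 : Real.log M ≤ Real.log p := Real.log_le_log (by linarith) h2
      rw [div_div, div_le_div_iff₀ hp0 (by positivity)]
      nlinarith
  refine (Finset.sum_le_sum h1).trans ?_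
  rw [Finset.sum_add_distrib]
  refine add_le_add ?_ le_rfl
  rw [← Finset.sum_filter, Finset.sum_const, nsmul_eq_mul, mul_one]
  have h2 : ((Nat.primesBelow (z + 1)).filter fun p => p < M) ⊆ Finset.range M := by
    intro p hp
    exact Finset.mem_range.2 (Finset.mem_filter.1 hp).2
  have h3 := Finset.card_le_card h2
  rw [Finset.card_range] at h3
  exact_mod_cast h3

theorem aux16 (j : ℕ) : 2 * (3 + j) + 3 ≤ 4 ^ (2 + j) := by
  induction j with
  | zero => norm_num
  | succ j ih =>
    have h : 4 ^ (2 + (j + 1)) = 4 * 4 ^ (2 + j) := by ring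
    omega

/-- the constant `4^((K+1)z) (2K+3)^z` -/
theorem E_le {z K : ℕ} {L : ℝ} (hK : 3 ≤ K) (hz : (z : ℝ) ≤ L / (8 * K)) :
    (4 : ℝ) ^ ((K + 1) * z) * (2 * K + 3) ^ z ≤ Real.exp (3 * L / 8) := by
  have hK' : (3 : ℝ) ≤ K := by exact_mod_cast hK
  have h1 : (2 * K + 3 : ℝ) ≤ 4 ^ (K - 1) := by
    obtain ⟨j, rfl⟩ := Nat.exists_eq_add_of_le hK
    have h2 : 3 + j - 1 = 2 + j := by omega
    rw [h2]
    exact_mod_cast aux16 j
  have h2 : (4 : ℝ) ^ (K + 1) * (2 * K + 3) ≤ 16 ^ K := by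
    have h3 : (16 : ℝ) ^ K = 4 ^ (K + 1) * 4 ^ (K - 1) := by
      rw [← pow_add, show K + 1 + (K - 1) = 2 * K by omega, pow_mul]
      norm_num
    rw [h3]
    exact mul_le_mul_of_nonneg_left h1 (by positivity)
  have h3 : (16 : ℝ) ≤ Real.exp 3 := by
    have h4 := Real.exp_one_gt_d9
    have h5 : Real.exp 3 = Real.exp 1 ^ 3 := by
      rw [← Real.exp_nat_mul]
      norm_num
    rw [h5]
    have h6 : (2.7 : ℝ) ^ 3 ≤ Real.exp 1 ^ 3 := pow_le_pow_left₀ (by norm_num) (by linarith) 3
    refine le_trans ?_ h6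
    norm_num
  have h4 : (4 : ℝ) ^ ((K + 1) * z) * (2 * K + 3) ^ z = (4 ^ (K + 1) * (2 * K + 3)) ^ z := by
    rw [mul_pow, ← pow_mul]
  have h5 : (K : ℝ) * z ≤ L / 8 := by
    have h6 := mul_le_mul_of_nonneg_left hz (show (0 : ℝ) ≤ K by linarith)
    have h7 : (K : ℝ) * (L / (8 * K)) = L / 8 := by
      field_simp
    linarith
  rw [h4]
  calc ((4 : ℝ) ^ (K + 1) * (2 * K + 3)) ^ z ≤ (16 ^ K) ^ z :=
        pow_le_pow_left₀ (by positivity) h2 z
    _ ≤ (Real.exp 3 ^ K) ^ z :=
        pow_le_pow_left₀ (by positivity) (pow_le_pow_left₀ (by norm_num) h3 K) z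
    _ = Real.exp (3 * (K * z)) := by
        rw [← pow_mul, ← Real.exp_nat_mul]
        congr 1
        push_cast
        ring
    _ ≤ Real.exp (3 * L / 8) := by
        apply Real.exp_le_exp.2
        linarith

/-- all the inequalities that the choice of `H` has to give -/
theorem ev (M : ℕ) (ε δ : ℝ) (hε : 0 < ε) (hδ : 0 < δ) (hM : 4 / ε ≤ Real.log M) :
    ∀ᶠ H : ℝ in atTop, 0 < H ∧ 3 ≤ Kk H ∧ 3 ≤ zz H ∧ (zz H : ℝ) ≤ Real.log H / (8 * Kk H) ∧
      P1 (zz H) ≤ ε * Kk H ∧ P2 (zz H) ≤ ε * (Kk H * Real.log (zz H)) ∧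
      (zz H + 1 : ℝ) ^ 2 * Real.exp (3 * Real.log H / 8) ≤ δ * H := by
  have t1 : Tendsto Real.log atTop atTop := Real.tendsto_log_atTop
  have t2 : Tendsto (fun H : ℝ => Real.log (Real.log H)) atTop atTop := t1.comp t1
  have e1 : ∀ᶠ L : ℝ in atTop, 48 * Real.log L ≤ L := by
    have h := (Real.isLittleO_log_id_atTop).def (show (0 : ℝ) < 1 / 48 by norm_num)
    filter_upwards [h, eventually_ge_atTop (1 : ℝ)] with L hL hL1
    have h2 : |Real.log L| ≤ 1 / 48 * |L| := hL
    rw [abs_of_nonneg (Real.log_nonneg hL1), abs_of_nonneg (by linarith)] at h2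
    linarith
  have e2 : ∀ᶠ L : ℝ in atTop, L ^ 2 * Real.exp (-(L / 2)) ≤ δ := by
    have h := Real.tendsto_pow_mul_exp_neg_atTop_nhds_zero 2
    have h2 : Tendsto (fun L : ℝ => L / 2) atTop atTop :=
      tendsto_id.atTop_div_const (by norm_num)
    have h3 := (h.comp h2).eventually (gt_mem_nhds (show (0 : ℝ) < δ / 4 by linarith))
    filter_upwards [h3] with L hL
    have h4 : (L / 2) ^ 2 * Real.exp (-(L / 2)) < δ / 4 := hL
    nlinarith
  filter_upwards [eventually_gt_atTop (0 : ℝ), t1.eventually e1, t1.eventually e2,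
    t1.eventually (eventually_ge_atTop (24 : ℝ)),
    t2.eventually (eventually_ge_atTop (3 : ℝ)), t2.eventually (eventually_ge_atTop (4 / ε)),
    t2.eventually (eventually_ge_atTop (4 * (M : ℝ) / ε))] with H h0 h1 h2 h3 h4 h5 h6
  set L := Real.log H with hL
  set l := Real.log L with hl
  have hL0 : 0 < L := by linarith
  have hK1 : l ≤ Kk H := Nat.le_ceil _
  have hK2 : (Kk H : ℝ) < l + 1 := Nat.ceil_lt_add_one (by linarith)
  have hK3 : 3 ≤ Kk H := by
    have : (3 : ℝ) ≤ Kk H := by linarith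
    exact_mod_cast this
  have hKp : (3 : ℝ) ≤ Kk H := by exact_mod_cast hK3
  have hz1 : (zz H : ℝ) ≤ L / (8 * Kk H) := Nat.floor_le (by positivity)
  have hz2 : 3 ≤ zz H := by
    apply Nat.le_floor
    rw [le_div_iff₀ (by positivity)]
    push_cast
    linarith
  have hz2' : (3 : ℝ) ≤ zz H := by exact_mod_cast hz2
  have hzL : (zz H : ℝ) + 1 ≤ L := by
    have h7 : L / (8 * Kk H) ≤ L / 24 := by
      apply div_le_div_of_nonneg_left hL0.le (by norm_num)
      linarith
    linarith
  have hlz1 : 1 ≤ Real.log (zz H) := by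
    rw [Real.le_log_iff_exp_le (by linarith)]
    have := Real.exp_one_lt_d9
    linarith
  have hlz2 : Real.log (zz H) ≤ l := Real.log_le_log (by linarith) (by linarith)
  have hlog4 : Real.log 4 ≤ 2 := by
    have h7 : Real.log 4 = 2 * Real.log 2 := by
      rw [show (4 : ℝ) = 2 ^ 2 by norm_num, Real.log_pow]
      norm_num
    have := Real.log_two_lt_d9
    linarith
  have hP2 := P2_le (show 1 ≤ zz H by omega)
  have hM2 : 2 ≤ M := by
    by_contra hcon
    have h7 : M = 0 ∨ M = 1 := by omega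
    have h8 : Real.log (M : ℝ) = 0 := by
      rcases h7 with h7 | h7 <;> simp [h7]
    rw [h8] at hM
    have : 0 < 4 / ε := by positivity
    linarith
  have hlM : 0 < Real.log M := Real.log_pos (by exact_mod_cast hM2)
  refine ⟨h0, hK3, hz2, hz1, ?_, ?_, ?_⟩
  · have h7 := P1_le M (zz H) hM2
    have h8 : P2 (zz H) ≤ 2 * l := by linarith
    have h9 : P2 (zz H) / Real.log M ≤ ε / 2 * l := by
      rw [div_le_iff₀ hlM]
      have h10 : 4 ≤ ε * Real.log M := by
        rw [div_le_iff₀ hε] at hM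
        linarith
      nlinarith
    have h10 : (M : ℝ) ≤ ε / 4 * l := by
      rw [div_le_iff₀ hε] at h6
      linarith
    have h11 : ε * l ≤ ε * Kk H := mul_le_mul_of_nonneg_left hK1 hε.le
    have h12 : 0 ≤ ε * l := by positivity
    linarith
  · have h7 : 4 ≤ ε * Kk H := by
      rw [div_le_iff₀ hε] at h5
      nlinarith
    nlinarith
  · have h7 : ((zz H : ℝ) + 1) ^ 2 ≤ L ^ 2 := pow_le_pow_left₀ (by linarith) hzL 2
    have h8 : Real.exp (3 * L / 8) ≤ Real.exp (-(L / 2)) * Real.exp L := by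
      rw [← Real.exp_add]
      apply Real.exp_le_exp.2
      linarith
    have h9 : Real.exp L = H := Real.exp_log h0
    calc ((zz H : ℝ) + 1) ^ 2 * Real.exp (3 * L / 8) ≤
          L ^ 2 * (Real.exp (-(L / 2)) * Real.exp L) :=
          mul_le_mul h7 h8 (Real.exp_pos _).le (by positivity)
      _ = L ^ 2 * Real.exp (-(L / 2)) * H := by rw [h9]; ring
      _ ≤ δ * H := mul_le_mul_of_nonneg_right h2 h0.le

theorem st_LB (h1 : ST_WI) : ST_LB := by
  intro η hη
  obtain ⟨M, hM⟩ : ∃ M : ℕ, 4 / (η / 8) ≤ Real.log M := by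
    obtain ⟨M, hM⟩ := exists_nat_ge (Real.exp (4 / (η / 8)))
    refine ⟨M, ?_⟩
    rw [Real.le_log_iff_exp_le (lt_of_lt_of_le (Real.exp_pos _) hM)]
    exact hM
  set δ : ℝ := min (1 / 16) (η / 64) with hδ
  have hδ0 : 0 < δ := by
    rw [hδ]
    exact lt_min (by norm_num) (by positivity)
  have hδ1 : δ ≤ 1 / 16 := min_le_left _ _
  have hδ2 : δ ≤ η / 64 := min_le_right _ _
  obtain ⟨H₀, hH₀⟩ := eventually_atTop.1 (ev M (η / 8) δ (by positivity) hδ0 hM)
  refine ⟨H₀, fun H hH u α => ?_⟩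
  obtain ⟨h0, hK, hz, hzL, hP1, hP2, hE⟩ := hH₀ H hH
  set z := zz H with hzdef
  set K := Kk H with hKdef
  have hK' : (3 : ℝ) ≤ K := by exact_mod_cast hK
  have hz' : (3 : ℝ) ≤ z := by exact_mod_cast hz
  have hlz1 : 1 ≤ Real.log z := by
    rw [Real.le_log_iff_exp_le (by linarith)]
    have := Real.exp_one_lt_d9
    linarith
  obtain ⟨g1, g2, g3⟩ := h1 z K α u H (by omega) h0.le
  set E : ℝ := 4 ^ ((K + 1) * z) * (2 * K + 3) ^ z with hEdef
  have hE0 : 0 ≤ E := by rw [hEdef]; positivity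
  have hE1 : E ≤ Real.exp (3 * Real.log H / 8) := E_le hK hzL
  have hE2 : (z + 1 : ℝ) ^ 2 * E ≤ δ * H :=
    le_trans (mul_le_mul_of_nonneg_left hE1 (by positivity)) hE
  have hE3 : (z + 1 : ℝ) * E ≤ δ * H := by
    refine le_trans ?_ hE2
    apply mul_le_mul_of_nonneg_right _ hE0
    nlinarith
  have hE4 : E ≤ δ * H := by
    refine le_trans ?_ hE3
    nlinarith
  have k1 : H - 2 * E ≤ ∫ t in u..(u + H), ww z K α t := by
    have h2 := (abs_le.1 g1).1
    have h3 : 2 * (4 : ℝ) ^ ((K + 1) * z) * (2 * K + 3) ^ z = 2 * E := by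
      rw [hEdef]; ring
    linarith
  have k2 : (∫ t in u..(u + H), ww z K α t * D1 z α t) ≤ H * (η / 8) + 4 * (δ * H) := by
    have h2 : H * P1 z / K ≤ H * (η / 8) := by
      rw [div_le_iff₀ (by linarith)]
      have := mul_le_mul_of_nonneg_left hP1 h0.le
      linarith
    have h3 : 4 * (4 : ℝ) ^ ((K + 1) * z) * (2 * K + 3) ^ z * (z + 1) = 4 * ((z + 1) * E) := by
      rw [hEdef]; ring
    linarith
  have k3 : (∫ t in u..(u + H), ww z K α t * D2 z α t) ≤
      H * (η / 8) * Real.log z + 4 * (δ * H) := by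
    have h2 : H * P2 z / K ≤ H * (η / 8) * Real.log z := by
      rw [div_le_iff₀ (by linarith)]
      have := mul_le_mul_of_nonneg_left hP2 h0.le
      linarith
    have h3 : 4 * (4 : ℝ) ^ ((K + 1) * z) * (2 * K + 3) ^ z * (z + 1) ^ 2 =
        4 * ((z + 1) ^ 2 * E) := by
      rw [hEdef]; ring
    linarith
  have i1 : IntervalIntegrable (fun t => ww z K α t) volume u (u + H) :=
    (ww_cont z K α).intervalIntegrable _ _
  have i2 : IntervalIntegrable (fun t => ww z K α t * D1 z α t) volume u (u + H) :=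
    ((ww_cont z K α).mul (D1_cont z α)).intervalIntegrable _ _
  have i3 : IntervalIntegrable (fun t => ww z K α t * D2 z α t) volume u (u + H) :=
    ((ww_cont z K α).mul (D2_cont z α)).intervalIntegrable _ _
  have k4 : (∫ t in u..(u + H), ww z K α t *
      (1 - D1 z α t / η - D2 z α t / (η * Real.log z))) =
      (∫ t in u..(u + H), ww z K α t) - (1 / η) * (∫ t in u..(u + H), ww z K α t * D1 z α t) -
        (1 / (η * Real.log z)) * ∫ t in u..(u + H), ww z K α t * D2 z α t := by
    rw [← intervalIntegral.integral_const_mul, ← intervalIntegral.integral_const_mul,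
      ← intervalIntegral.integral_sub i1 (i2.const_mul _),
      ← intervalIntegral.integral_sub (i1.sub (i2.const_mul _)) (i3.const_mul _)]
    refine intervalIntegral.integral_congr fun t _ => ?_
    ring
  rw [k4]
  have k5 : (1 / η) * (∫ t in u..(u + H), ww z K α t * D1 z α t) ≤ H * (1 / 8) + H * (1 / 16) := by
    have h2 := mul_le_mul_of_nonneg_left k2 (show 0 ≤ 1 / η by positivity)
    refine h2.trans ?_
    have h3 : 1 / η * (H * (η / 8) + 4 * (δ * H)) = H * (1 / 8) + H * (4 * δ / η) := by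
      field_simp
    rw [h3]
    have h4 : 4 * δ / η ≤ 1 / 16 := by
      rw [div_le_iff₀ hη]
      linarith
    have := mul_le_mul_of_nonneg_left h4 h0.le
    linarith
  have k6 : (1 / (η * Real.log z)) * (∫ t in u..(u + H), ww z K α t * D2 z α t) ≤
      H * (1 / 8) + H * (1 / 16) := by
    have h2 := mul_le_mul_of_nonneg_left k3 (show 0 ≤ 1 / (η * Real.log z) by positivity)
    refine h2.trans ?_
    have h3 : 1 / (η * Real.log z) * (H * (η / 8) * Real.log z + 4 * (δ * H)) =
        H * (1 / 8) + H * (4 * δ / (η * Real.log z)) := by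
      field_simp
    rw [h3]
    have h4 : 4 * δ / (η * Real.log z) ≤ 1 / 16 := by
      rw [div_le_iff₀ (by positivity)]
      nlinarith
    have := mul_le_mul_of_nonneg_left h4 h0.le
    linarith
  have k7 : 2 * E ≤ H * (1 / 8) := by
    have := mul_le_mul_of_nonneg_right hδ1 h0.le
    linarith
  linarith

end Pool.Agent.Helper63.SI
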